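import Pool.Agent.H.MP_ce2c94_gt.h16.Pos

/-!
The program of the four positivity certificates and its conclusion.
-/

open Set Filter Topology

namespace D3

open Pool.MP_ce2c94_gt.D3W Pool.Agent.H.MP_ce2c94_gt.h46

/-- the entries of the surface `h` are within `d` of those of `t` -/
structure Close (d : ℝ) (h t : Hat W) : Prop where
  P : ‖h.P.f - t.P.f‖ ≤ d
  Q : ‖h.Q.f - t.Q.f‖ ≤ d
  Z : ‖h.Z.f - t.Z.f‖ ≤ d
  Pu : ‖h.P.fu - t.P.fu‖ ≤ d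
  Qu : ‖h.Q.fu - t.Q.fu‖ ≤ d
  Zu : ‖h.Z.fu - t.Z.fu‖ ≤ d
  Pt : ‖h.P.ft - t.P.ft‖ ≤ d
  Qt : ‖h.Q.ft - t.Q.ft‖ ≤ d
  Zt : ‖h.Z.ft - t.Z.ft‖ ≤ d

/-- the first part: the tables of the surface and their first derivatives, rounded -/
def prePos (r : List (ℕ × ℕ × ℕ)) : List Ins :=
  [.tab 0 0 0, .rnd ((nth r 0).getD (0, 0, 0)).1 ((nth r 0).getD (0, 0, 0)).2.1 ((nth r 0).getD (0, 0, 0)).2.2 0,
   .tab 1 0 0, .rnd ((nth r 1).getD (0, 0, 0)).1 ((nth r 1).getD (0, 0, 0)).2.1 ((nth r 1).getD (0, 0, 0)).2.2 2,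
   .tab 2 0 0, .rnd ((nth r 2).getD (0, 0, 0)).1 ((nth r 2).getD (0, 0, 0)).2.1 ((nth r 2).getD (0, 0, 0)).2.2 4,
   .tab 0 1 0, .rnd ((nth r 3).getD (0, 0, 0)).1 ((nth r 3).getD (0, 0, 0)).2.1 ((nth r 3).getD (0, 0, 0)).2.2 6,
   .tab 1 1 0, .rnd ((nth r 4).getD (0, 0, 0)).1 ((nth r 4).getD (0, 0, 0)).2.1 ((nth r 4).getD (0, 0, 0)).2.2 8,
   .tab 2 1 0, .rnd ((nth r 5).getD (0, 0, 0)).1 ((nth r 5).getD (0, 0, 0)).2.1 ((nth r 5).getD (0, 0, 0)).2.2 10,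
   .tab 0 0 1, .rnd ((nth r 6).getD (0, 0, 0)).1 ((nth r 6).getD (0, 0, 0)).2.1 ((nth r 6).getD (0, 0, 0)).2.2 12,
   .tab 1 0 1, .rnd ((nth r 7).getD (0, 0, 0)).1 ((nth r 7).getD (0, 0, 0)).2.1 ((nth r 7).getD (0, 0, 0)).2.2 14,
   .tab 2 0 1, .rnd ((nth r 8).getD (0, 0, 0)).1 ((nth r 8).getD (0, 0, 0)).2.1 ((nth r 8).getD (0, 0, 0)).2.2 16]

/-- the rounded registers of the first part -/
def selPos : List ℕ := [1, 3, 5, 7, 9, 11, 13, 15, 17]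

/-- product with the `n`-th rounding -/
def mr (r : List (ℕ × ℕ × ℕ)) (n i j : ℕ) : Ins :=
  .mulr i j ((nth r n).getD (0, 0, 0)).1 ((nth r n).getD (0, 0, 0)).2.1
    ((nth r n).getD (0, 0, 0)).2.2

/-- the second part: registers 0, ..., 8 are `P Q Z P_u Q_u Z_u P_t Q_t Z_t`; the results are
52, 55, 58, 61 -/
def posProg (N s0 a c0 a' : ℕ) (r : List (ℕ × ℕ × ℕ)) : List Ins :=
  [.smul N 6, .add 9 1, .smul N 7, .add 11 0, .smul N 8,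
   mr r 0 4 13, mr r 1 5 12, .sub 14 15,
   mr r 2 5 10, mr r 3 3 13, .sub 17 18,
   mr r 4 3 12, mr r 5 4 10, .sub 20 21,
   mr r 6 0 0, mr r 7 1 1, .sub 23 24, .cst s0, .hlf a 26, .sub 25 27,
   mr r 8 0 16, mr r 9 1 19, .add 29 30, mr r 10 28 31,
   mr r 11 25 2, mr r 12 33 22, .smul 2 34, .add 32 35, .smul (-1) 36,
   mr r 13 0 12, mr r 14 1 10, .sub 38 39,
   .tab 3 0 0, .tab 3 1 0, mr r 15 28 41, mr r 16 2 42, .smul c0 44, .hlf a' 45, .sub 43 46,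
   .hlf 1 47, .cst 1,
   .tab 4 0 0, mr r 17 50 0, .sub 49 51,
   .tab 5 0 0, mr r 18 53 48, .sub 49 54,
   .tab 6 0 0, mr r 19 56 40, .sub 49 57,
   .tab 7 0 0, mr r 20 59 37, .sub 49 60]

/-- the requested bounds: all four norms are less than one -/
def outPos : List Out := [⟨52, 1023, 10⟩, ⟨55, 1023, 10⟩, ⟨58, 1023, 10⟩, ⟨61, 1023, 10⟩]

/-- the complete check of the four certificates, with errors `2^-q` of the nine entries -/
def checkPosQ (q b W' h I0 J0 k : ℕ) (BP BQ BZ G1 G2 G3 G4 : Base) (N s0 a c0 a' : ℕ)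
    (r r' : List (ℕ × ℕ × ℕ)) : Bool :=
  checkI b W' h I0 J0 k [BP, BQ, BZ, baseE, G1, G2, G3, G4] (prePos r) q selPos
    (posProg N s0 a c0 a' r') outPos

/-- the complete check of the four certificates, with errors `2^-20` of the nine entries -/
def checkPos (b W' h I0 J0 k : ℕ) (BP BQ BZ G1 G2 G3 G4 : Base) (N s0 a c0 a' : ℕ)
    (r r' : List (ℕ × ℕ × ℕ)) : Bool :=
  checkPosQ 20 b W' h I0 J0 k BP BQ BZ G1 G2 G3 G4 N s0 a c0 a' r r'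

section vals

variable {V : Type*} [NormedCommRing V] [NormedAlgebra ℝ V] {P : Par} (A : Alg P V)
  {BP BQ BZ E G1 G2 G3 G4 : Base} {N s0 a c0 a' : ℕ} {r : List (ℕ × ℕ × ℕ)}
  {x0 x1 x2 x3 x4 x5 x6 x7 x8 : V}

/-- the value of a table -/
noncomputable def tv (A : Alg P V) (B : Base) (a c : ℕ) : V :=
  tabW A B.w a c B.I B.J B.ε B.δ B.p B.N

theorem vals_pos1 : nth (vals A [BP, BQ, BZ, E, G1, G2, G3, G4] (posProg N s0 a c0 a' r)
    [x0, x1, x2, x3, x4, x5, x6, x7, x8]) 52 = some (((1 : ℤ) : V) - tv A G1 0 0 * x0) := by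
  simp only [posProg, mr, vals, Ins.val, nth, List.cons_append, List.nil_append,
    Option.getD_some]
  rfl

theorem vals_pos3 : nth (vals A [BP, BQ, BZ, E, G1, G2, G3, G4] (posProg N s0 a c0 a' r)
    [x0, x1, x2, x3, x4, x5, x6, x7, x8]) 58 = some (((1 : ℤ) : V) - tv A G3 0 0 *
      (x0 * ((N : ℤ) • x7 + x0) - x1 * ((N : ℤ) • x6 + x1))) := by
  simp only [posProg, mr, vals, Ins.val, nth, List.cons_append, List.nil_append,
    Option.getD_some]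
  rfl

theorem vals_pos2 : nth (vals A [BP, BQ, BZ, E, G1, G2, G3, G4] (posProg N s0 a c0 a' r)
    [x0, x1, x2, x3, x4, x5, x6, x7, x8]) 55 = some (((1 : ℤ) : V) - tv A G2 0 0 *
      ((((2 : ℝ) ^ 1)⁻¹) • ((x0 * x0 - x1 * x1 - (((2 : ℝ) ^ a)⁻¹) • (((s0 : ℤ) : V))) *
        tv A E 0 0 - (((2 : ℝ) ^ a')⁻¹) • ((c0 : ℤ) • (x2 * tv A E 1 0))))) := by
  simp only [posProg, mr, vals, Ins.val, nth, List.cons_append, List.nil_append,
    Option.getD_some]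
  rfl

theorem vals_pos4 : nth (vals A [BP, BQ, BZ, E, G1, G2, G3, G4] (posProg N s0 a c0 a' r)
    [x0, x1, x2, x3, x4, x5, x6, x7, x8]) 61 = some (((1 : ℤ) : V) - tv A G4 0 0 *
      ((-1 : ℤ) • ((x0 * x0 - x1 * x1 - (((2 : ℝ) ^ a)⁻¹) • (((s0 : ℤ) : V))) *
        (x0 * (x4 * ((N : ℤ) • x8) - x5 * ((N : ℤ) • x7 + x0)) +
         x1 * (x5 * ((N : ℤ) • x6 + x1) - x3 * ((N : ℤ) • x8))) +
        (2 : ℤ) • ((x0 * x0 - x1 * x1) * x2 *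
          (x3 * ((N : ℤ) • x7 + x0) - x4 * ((N : ℤ) • x6 + x1)))))) := by
  simp only [posProg, mr, vals, Ins.val, nth, List.cons_append, List.nil_append,
    Option.getD_some]
  rfl

/-- the values of the first part -/
theorem vals_pre : nth (vals A [BP, BQ, BZ, E, G1, G2, G3, G4] (prePos r) []) 1 =
      some (tv A BP 0 0) ∧
    nth (vals A [BP, BQ, BZ, E, G1, G2, G3, G4] (prePos r) []) 3 = some (tv A BQ 0 0) ∧
    nth (vals A [BP, BQ, BZ, E, G1, G2, G3, G4] (prePos r) []) 5 = some (tv A BZ 0 0) ∧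
    nth (vals A [BP, BQ, BZ, E, G1, G2, G3, G4] (prePos r) []) 7 = some (tv A BP 1 0) ∧
    nth (vals A [BP, BQ, BZ, E, G1, G2, G3, G4] (prePos r) []) 9 = some (tv A BQ 1 0) ∧
    nth (vals A [BP, BQ, BZ, E, G1, G2, G3, G4] (prePos r) []) 11 = some (tv A BZ 1 0) ∧
    nth (vals A [BP, BQ, BZ, E, G1, G2, G3, G4] (prePos r) []) 13 = some (tv A BP 0 1) ∧
    nth (vals A [BP, BQ, BZ, E, G1, G2, G3, G4] (prePos r) []) 15 = some (tv A BQ 0 1) ∧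
    nth (vals A [BP, BQ, BZ, E, G1, G2, G3, G4] (prePos r) []) 17 = some (tv A BZ 0 1) := by
  simp only [prePos, vals, Ins.val, nth, List.cons_append, List.nil_append,
    Option.getD_some]
  exact ⟨rfl, rfl, rfl, rfl, rfl, rfl, rfl, rfl, rfl⟩

end vals

theorem par_I0 (b W' h I0 J0 k : ℕ) : (par b W' h I0 J0 k).I0 = I0 := by
  simp only [par, mkPar, forceN_eq, id]

theorem par_J0 (b W' h I0 J0 k : ℕ) : (par b W' h I0 J0 k).J0 = J0 := by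
  simp only [par, mkPar, forceN_eq, id]

theorem par_k (b W' h I0 J0 k : ℕ) : (par b W' h I0 J0 k).k = k := by
  simp only [par, mkPar, forceN_eq, id]

/-- the algebra of the programs, from the numeric parameters -/
noncomputable def algP (b W' h : ℕ) {I0 J0 k : ℕ} (hk : (I0 + J0) * 2 ^ (k + 1) ≤ 2 ^ 20) :
    Alg (par b W' h I0 J0 k) W :=
  algW (par b W' h I0 J0 k) (by rw [par_I0, par_J0, par_k]; exact nu_pow_le hk)

theorem tv_eq (b W' h : ℕ) {I0 J0 k : ℕ} (hk : (I0 + J0) * 2 ^ (k + 1) ≤ 2 ^ 20) (B : Base)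
    (a c : ℕ) : tv (algP b W' h hk) B a c = baseW B a c := rfl

theorem smul_int (x : ℝ) (n : ℤ) : x • ((n : ℤ) : W) = algebraMap ℝ W (x * n) := by
  rw [Algebra.smul_def, map_mul, map_intCast]

section main

variable {BP BQ BZ G1 G2 G3 G4 : Base} {N s0 a c0 a' : ℕ} {r r' : List (ℕ × ℕ × ℕ)}
  {q b W' h' I0 J0 k : ℕ}

/-- The conclusion of the check: the four norms. -/
theorem norms_of_check (hk : (I0 + J0) * 2 ^ (k + 1) ≤ 2 ^ 20)
    (hc : checkPosQ q b W' h' I0 J0 k BP BQ BZ G1 G2 G3 G4 N s0 a c0 a' r r' = true)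
    {h : Hat W} (hcl : Close (1 / 2 ^ q) h (tabHat BP BQ BZ)) :
    ‖1 - baseW G1 0 0 * h.P.f‖ < 1 ∧
    ‖1 - baseW G2 0 0 * h.cosq eu eu' ((s0 : ℝ) / 2 ^ a) ((c0 : ℝ) / 2 ^ a')‖ < 1 ∧
    ‖1 - baseW G3 0 0 * h.ang N‖ < 1 ∧
    ‖1 - baseW G4 0 0 * h.jac N ((s0 : ℝ) / 2 ^ a)‖ < 1 := by
  have hs := checkI_sound (algP b W' h' hk) hc
    [h.P.f, h.Q.f, h.Z.f, h.P.fu, h.Q.fu, h.Z.fu, h.P.ft, h.Q.ft, h.Z.ft] (by
      obtain ⟨v1, v2, v3, v4, v5, v6, v7, v8, v9⟩ := vals_pre (algP b W' h' hk) (BP := BP)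
        (BQ := BQ) (BZ := BZ) (E := baseE) (G1 := G1) (G2 := G2) (G3 := G3) (G4 := G4) (r := r)
      simp only [tv_eq] at v1 v2 v3 v4 v5 v6 v7 v8 v9
      unfold selPos
      refine .cons ?_ (.cons ?_ (.cons ?_ (.cons ?_ (.cons ?_ (.cons ?_ (.cons ?_ (.cons ?_
        (.cons ?_ .nil)))))))) <;> intro x hx
      · rw [v1] at hx; injection hx with hx; rw [← hx]; exact hcl.P
      · rw [v2] at hx; injection hx with hx; rw [← hx]; exact hcl.Q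
      · rw [v3] at hx; injection hx with hx; rw [← hx]; exact hcl.Z
      · rw [v4] at hx; injection hx with hx; rw [← hx]; exact hcl.Pu
      · rw [v5] at hx; injection hx with hx; rw [← hx]; exact hcl.Qu
      · rw [v6] at hx; injection hx with hx; rw [← hx]; exact hcl.Zu
      · rw [v7] at hx; injection hx with hx; rw [← hx]; exact hcl.Pt
      · rw [v8] at hx; injection hx with hx; rw [← hx]; exact hcl.Qt
      · rw [v9] at hx; injection hx with hx; rw [← hx]; exact hcl.Zt)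
  have hlt : ((1023 : ℕ) : ℝ) / 2 ^ 10 < 1 := by norm_num
  refine ⟨?_, ?_, ?_, ?_⟩
  · have := hs ⟨52, 1023, 10⟩ (by simp [outPos]) _ (vals_pos1 _)
    rw [tv_eq, Int.cast_one] at this
    exact this.trans_lt hlt
  · have := hs ⟨55, 1023, 10⟩ (by simp [outPos]) _ (vals_pos2 _)
    rw [tv_eq, tv_eq, tv_eq, Int.cast_one, baseE_0, baseE_1, smul_int] at this
    refine lt_of_eq_of_lt ?_ (this.trans_lt hlt)
    congr 3
    rw [Hat.cosq, Hat.rho, Algebra.smul_def, Algebra.smul_def, zsmul_eq_mul, pow_one]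
    have e1 : algebraMap ℝ W (((2 : ℝ) ^ a)⁻¹ * ((s0 : ℤ) : ℝ)) =
        algebraMap ℝ W ((s0 : ℝ) / 2 ^ a) := by
      congr 1
      push_cast
      rw [div_eq_mul_inv, mul_comm]
    have e2 : algebraMap ℝ W ((c0 : ℝ) / 2 ^ a') =
        algebraMap ℝ W (((2 : ℝ) ^ a')⁻¹) * (((c0 : ℤ) : W)) := by
      rw [← map_intCast (algebraMap ℝ W), ← map_mul]
      congr 1
      push_cast
      rw [div_eq_mul_inv, mul_comm]
    have e3 : algebraMap ℝ W ((2 : ℝ)⁻¹) = algebraMap ℝ W (1 / 2) := by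
      congr 1
      norm_num
    rw [e1, e2, e3]
    ring
  · have := hs ⟨58, 1023, 10⟩ (by simp [outPos]) _ (vals_pos3 _)
    rw [tv_eq, Int.cast_one] at this
    refine lt_of_eq_of_lt ?_ (this.trans_lt hlt)
    congr 3
    rw [Hat.ang, Hat.a1, Hat.a2, zsmul_eq_mul, zsmul_eq_mul]
    push_cast
    ring
  · have := hs ⟨61, 1023, 10⟩ (by simp [outPos]) _ (vals_pos4 _)
    rw [tv_eq, Int.cast_one, smul_int] at this
    refine lt_of_eq_of_lt ?_ (this.trans_lt hlt)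
    congr 3
    have e1 : algebraMap ℝ W (((2 : ℝ) ^ a)⁻¹ * ((s0 : ℤ) : ℝ)) =
        algebraMap ℝ W ((s0 : ℝ) / 2 ^ a) := by
      congr 1
      push_cast
      rw [div_eq_mul_inv, mul_comm]
    rw [e1]
    simp only [Hat.jac, Hat.rho, Hat.n1, Hat.n2, Hat.n3, Hat.a1, Hat.a2, Hat.a3, zsmul_eq_mul]
    push_cast
    ring

/-- The four positivity conditions from the check, for every surface near the tables. -/
theorem posW_of_checkQ (hk : (I0 + J0) * 2 ^ (k + 1) ≤ 2 ^ 20)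
    (hc : checkPosQ q b W' h' I0 J0 k BP BQ BZ G1 G2 G3 G4 N s0 a c0 a' r r' = true)
    (h1 : MulOK G1) (h2 : MulOK G2) (h3 : MulOK G3) (h4 : MulOK G4)
    {h : Hat W} (H : IsHat evp h) (hcl : Close (1 / 2 ^ q) h (tabHat BP BQ BZ)) :
    PosW h.P.f ∧ PosW (h.cosq eu eu' ((s0 : ℝ) / 2 ^ a) ((c0 : ℝ) / 2 ^ a')) ∧
      PosW (h.ang N) ∧ PosW (h.jac N ((s0 : ℝ) / 2 ^ a)) := by
  obtain ⟨n1, n2, n3, n4⟩ := norms_of_check hk hc hcl
  refine ⟨posW_of_norm H.rP h1.im n1 h1.re, posW_of_norm ?_ h2.im n2 h2.re,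
    posW_of_norm ?_ h3.im n3 h3.re, posW_of_norm ?_ h4.im n4 h4.re⟩
  · intro p
    rw [← H.cosq_eq N evp_eu evp_eu' _ _ p]
    exact Complex.ofReal_im _
  · intro p
    rw [← H.ang_eq N p]
    exact Complex.ofReal_im _
  · intro p
    rw [← H.Jac_eq N _ p]
    exact Complex.ofReal_im _

/-- The four positivity conditions from the check, for every surface near the tables. -/
theorem posW_of_check (hk : (I0 + J0) * 2 ^ (k + 1) ≤ 2 ^ 20)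
    (hc : checkPos b W' h' I0 J0 k BP BQ BZ G1 G2 G3 G4 N s0 a c0 a' r r' = true)
    (h1 : MulOK G1) (h2 : MulOK G2) (h3 : MulOK G3) (h4 : MulOK G4)
    {h : Hat W} (H : IsHat evp h) (hcl : Close (1 / 2 ^ 20) h (tabHat BP BQ BZ)) :
    PosW h.P.f ∧ PosW (h.cosq eu eu' ((s0 : ℝ) / 2 ^ a) ((c0 : ℝ) / 2 ^ a')) ∧
      PosW (h.ang N) ∧ PosW (h.jac N ((s0 : ℝ) / 2 ^ a)) :=
  posW_of_checkQ hk hc h1 h2 h3 h4 H hcl

end main

section close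

theorem norm_mul_le_of {x y : W} {p q : ℝ} (hx : ‖x‖ ≤ p) (hy : ‖y‖ ≤ q) : ‖x * y‖ ≤ p * q :=
  (norm_mul_le _ _).trans (mul_le_mul hx hy (norm_nonneg _) ((norm_nonneg _).trans hx))

/-- The perturbed surface is near the background. -/
theorem close_pert {C V : Hat W} {φ : HJet W} {r0 r1 r2 v0 v1 v2 d : ℝ}
    (h0 : ‖φ.f‖ ≤ r0) (h1 : ‖φ.fu‖ ≤ r1) (h2 : ‖φ.ft‖ ≤ r2)
    (hP0 : ‖V.P.f‖ ≤ v0) (hQ0 : ‖V.Q.f‖ ≤ v0) (hZ0 : ‖V.Z.f‖ ≤ v0)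
    (hP1 : ‖V.P.fu‖ ≤ v1) (hQ1 : ‖V.Q.fu‖ ≤ v1) (hZ1 : ‖V.Z.fu‖ ≤ v1)
    (hP2 : ‖V.P.ft‖ ≤ v2) (hQ2 : ‖V.Q.ft‖ ≤ v2) (hZ2 : ‖V.Z.ft‖ ≤ v2)
    (d0 : r0 * v0 ≤ d) (d1 : r1 * v0 + r0 * v1 ≤ d) (d2 : r2 * v0 + r0 * v2 ≤ d) :
    Close d (C.pert V φ) C := by
  have k0 : ∀ {x : W}, ‖x‖ ≤ v0 → ∀ y : W, ‖(y + φ.f * x) - y‖ ≤ d := by
    intro x hx y
    rw [add_sub_cancel_left]
    exact (norm_mul_le_of h0 hx).trans d0
  have k1 : ∀ {x x' : W}, ‖x‖ ≤ v0 → ‖x'‖ ≤ v1 → ∀ y : W,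
      ‖(y + (φ.fu * x + φ.f * x')) - y‖ ≤ d := by
    intro x x' hx hx' y
    rw [add_sub_cancel_left]
    exact (norm_add_le _ _).trans ((add_le_add (norm_mul_le_of h1 hx)
      (norm_mul_le_of h0 hx')).trans d1)
  have k2 : ∀ {x x' : W}, ‖x‖ ≤ v0 → ‖x'‖ ≤ v2 → ∀ y : W,
      ‖(y + (φ.ft * x + φ.f * x')) - y‖ ≤ d := by
    intro x x' hx hx' y
    rw [add_sub_cancel_left]
    exact (norm_add_le _ _).trans ((add_le_add (norm_mul_le_of h2 hx)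
      (norm_mul_le_of h0 hx')).trans d2)
  exact ⟨k0 hP0 _, k0 hQ0 _, k0 hZ0 _, k1 hP0 hP1 _, k1 hQ0 hQ1 _, k1 hZ0 hZ1 _,
    k2 hP0 hP2 _, k2 hQ0 hQ2 _, k2 hZ0 hZ2 _⟩

theorem Close.mono {d d' : ℝ} {h t : Hat W} (H : Close d h t) (hd : d ≤ d') : Close d' h t :=
  ⟨H.P.trans hd, H.Q.trans hd, H.Z.trans hd, H.Pu.trans hd, H.Qu.trans hd, H.Zu.trans hd,
    H.Pt.trans hd, H.Qt.trans hd, H.Zt.trans hd⟩

end close

end D3
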