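import Pool.Agent.H.MP_ce2c94_gt.h16.WC

/-!
Positivity certificates: a real element `f` with `‖1 - g f‖ < 1` has no zeros.
-/

open Set Filter Topology

namespace D3

namespace Evl

variable {W : Type*} [NormedCommRing W] [NormedAlgebra ℝ W] {e : Evl W}

/-- Positivity of a function from the norm of `1 - g f` and one value of `g`. -/
theorem pos_of_norm (hev : ∀ u t f, ‖e.ev u t f‖ ≤ ‖f‖) {f g : W} (h : ‖1 - g * f‖ < 1)
    (hf : e.Re f) (hg : e.Re g) (κ : ℝ) {p₀ : ℝ × ℝ} (h0 : 0 < e.r κ g p₀) (p : ℝ × ℝ) :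
    0 < e.r κ f p := by
  have key : ∀ q : ℝ × ℝ, 0 < e.r κ g q * e.r κ f q := by
    intro q
    have h1 : ‖e.C κ (1 - g * f) q‖ < 1 := (hev _ _ _).trans_lt h
    have h2 : e.C κ (1 - g * f) q = ((1 - e.r κ g q * e.r κ f q : ℝ) : ℂ) := by
      rw [C_sub, C_mul, hf.C e κ q, hg.C e κ q]
      have : e.C κ (1 : W) q = 1 := map_one _
      rw [this]
      push_cast
      ring
    rw [h2, Complex.norm_real, Real.norm_eq_abs, abs_lt] at h1
    linarith [h1.2]
  have hc : Continuous (e.r κ f) := (e.r_smooth κ f).continuous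
  have hpos0 : 0 < e.r κ f p₀ := by
    have := key p₀
    exact (mul_pos_iff_of_pos_left h0).mp this
  by_contra hn
  rw [not_lt] at hn
  have hpre : IsPreconnected (univ : Set (ℝ × ℝ)) := isPreconnected_univ
  obtain ⟨q, -, hq⟩ := hpre.intermediate_value (mem_univ p) (mem_univ p₀) hc.continuousOn
    ⟨hn, hpos0.le⟩
  have := key q
  rw [hq, mul_zero] at this
  exact lt_irrefl _ this

/-- The perturbed version. -/
theorem pos_of_norm_add (hev : ∀ u t f, ‖e.ev u t f‖ ≤ ‖f‖) {f f₀ g : W} {a b c : ℝ}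
    (h : ‖1 - g * f₀‖ ≤ a) (hg1 : ‖g‖ ≤ b) (hd : ‖f - f₀‖ ≤ c) (hb : a + b * c < 1)
    (hf : e.Re f) (hg : e.Re g) (κ : ℝ) {p₀ : ℝ × ℝ} (h0 : 0 < e.r κ g p₀) (p : ℝ × ℝ) :
    0 < e.r κ f p := by
  refine pos_of_norm hev ?_ hf hg κ h0 p
  have h1 : 1 - g * f = (1 - g * f₀) - g * (f - f₀) := by ring
  rw [h1]
  have h2 : ‖g * (f - f₀)‖ ≤ b * c :=
    (norm_mul_le _ _).trans (mul_le_mul hg1 hd (norm_nonneg _) ((norm_nonneg _).trans hg1))
  linarith [norm_sub_le (1 - g * f₀) (g * (f - f₀))]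

end Evl

end D3
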