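import Pool.Agent.H.MP_ce2c94_gt.D3Tab

/-!
Positivity certificates: the four positivity conditions of a shrinking torus from one kernel
check.  The programs run from cells with enlarged errors, so that the conclusion holds for all
surfaces near the tabulated one.
-/

open Set Filter Topology

namespace D3

open Pool.MP_ce2c94_gt.D3W Pool.Agent.H.MP_ce2c94_gt.h46

/-! ### positivity from a norm -/

theorem continuous_evp (f : W) : Continuous fun p => (evp p f).re :=
  Complex.continuous_re.comp (contDiff_ev f).continuous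

/-- Positivity of `f` from the norm of `1 - g f` and one value of `g`. -/
theorem posW_of_norm {f g : W} (hf : ∀ p, (evp p f).im = 0) (hg : ∀ p, (evp p g).im = 0)
    (h : ‖1 - g * f‖ < 1) (h0 : 0 < (evp (0, 0) g).re) : PosW f := by
  have key : ∀ q : ℝ × ℝ, 0 < (evp q g).re * (evp q f).re := by
    intro q
    have h1 : ‖evp q (1 - g * f)‖ < 1 := (norm_ev_le _ _ _).trans_lt h
    have h2 : evp q (1 - g * f) = ((1 - (evp q g).re * (evp q f).re : ℝ) : ℂ) := by
      have e1 : evp q g = ((evp q g).re : ℂ) := Complex.ext rfl (by simp [hg q])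
      have e2 : evp q f = ((evp q f).re : ℂ) := Complex.ext rfl (by simp [hf q])
      rw [map_sub, map_mul, map_one]
      rw [e1, e2]
      push_cast
      simp
    rw [h2, Complex.norm_real, Real.norm_eq_abs, abs_lt] at h1
    linarith [h1.2]
  have hpos0 : 0 < (evp (0, 0) f).re := (mul_pos_iff_of_pos_left h0).mp (key (0, 0))
  intro p
  by_contra hn
  rw [not_lt] at hn
  have hpre : IsPreconnected (univ : Set (ℝ × ℝ)) := isPreconnected_univ
  obtain ⟨q, -, hq⟩ := hpre.intermediate_value (mem_univ p) (mem_univ (0, 0))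
    (continuous_evp f).continuousOn ⟨hn, hpos0.le⟩
  have := key q
  simp only at hq
  rw [hq, mul_zero] at this
  exact lt_irrefl _ this

/-! ### programs from cells with enlarged errors -/

section infl

variable {P : Par} {V : Type*} [NormedCommRing V] [NormedAlgebra ℝ V] {A : Alg P V}

/-- enlarge the error -/
def inflC (e : ℕ) (c : Cell) : Cell := ⟨c.z, c.I, c.J, c.s, c.e + e, c.p⟩

theorem inflC_sound {x y : V} {c : Cell} {e : ℕ} (h : Enc A x c)
    (hx : (2 : ℝ) ^ c.p * ‖y - x‖ ≤ e) : Enc A y (inflC e c) := by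
  obtain ⟨u, u1, u2, u3, u4⟩ := h.ex
  refine ⟨u, u1, u2, u3, ?_⟩
  have e1 : ((2 : ℝ) ^ c.p) • y - A.ι u =
      (((2 : ℝ) ^ c.p) • x - A.ι u) + ((2 : ℝ) ^ c.p) • (y - x) := by
    rw [smul_sub]
    abel
  show ‖((2 : ℝ) ^ c.p) • y - A.ι u‖ ≤ ((c.e + e : ℕ) : ℝ)
  rw [e1]
  push_cast
  refine (norm_add_le _ _).trans (add_le_add u4 ?_)
  rw [norm_smul, Real.norm_of_nonneg (by positivity)]
  exact hx

/-- choose registers and enlarge their errors by `2^-q` -/
def pick (st : List Cell) (q : ℕ) : List ℕ → Option (List Cell)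
  | [] => some []
  | i :: l => match nth st i with
    | some c => match pick st q l with
      | some l' => some (inflC (2 ^ c.p / 2 ^ q + 1) c :: l')
      | none => none
    | none => none

theorem pick_sound {vs : List V} {st : List Cell} (h : List.Forall₂ (Enc A) vs st) {q : ℕ} :
    ∀ (l : List ℕ) (l' : List Cell) (ys : List V), pick st q l = some l' →
      List.Forall₂ (fun y i => ∀ x, nth vs i = some x → ‖y - x‖ ≤ 1 / 2 ^ q) ys l →
      List.Forall₂ (Enc A) ys l'
  | [], l', ys, hp, hy => by
    simp only [pick, Option.some.injEq] at hp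
    rw [List.forall₂_nil_right_iff] at hy
    rw [← hp, hy]
    exact List.Forall₂.nil
  | i :: l, l', ys, hp, hy => by
    simp only [pick] at hp
    split at hp
    · rename_i c hc
      split at hp
      · rename_i m hm
        simp only [Option.some.injEq] at hp
        cases hy with
        | cons h1 h2 =>
          obtain ⟨x, hx, hx'⟩ := nth_forall h hc
          rw [← hp]
          refine List.Forall₂.cons (inflC_sound hx' ?_) (pick_sound h l m _ hm h2)
          have h3 := h1 x hx
          have h4 : ((2 : ℝ) ^ c.p) / 2 ^ q < ((2 ^ c.p / 2 ^ q : ℕ) : ℝ) + 1 := by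
            have h5 := Nat.lt_div_mul_add (a := 2 ^ c.p) (b := 2 ^ q) (Nat.two_pow_pos _)
            rw [div_lt_iff₀ (by positivity)]
            have : ((2 : ℝ) ^ c.p) < ((2 ^ c.p / 2 ^ q * 2 ^ q + 2 ^ q : ℕ) : ℝ) := by
              exact_mod_cast h5
            push_cast at this
            linarith
          push_cast
          calc (2 : ℝ) ^ c.p * _ ≤ 2 ^ c.p * (1 / 2 ^ q) :=
                mul_le_mul_of_nonneg_left h3 (by positivity)
            _ = (2 : ℝ) ^ c.p / 2 ^ q := by ring
            _ ≤ _ := h4.le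
      · exact absurd hp (by simp)
    · exact absurd hp (by simp)

/-- the check of a program from cells with enlarged errors -/
def checkI (b W h I0 J0 k : ℕ) (bs : List Base) (pre : List Ins) (q : ℕ) (sel : List ℕ)
    (is : List Ins) (os : List Out) : Bool :=
  mkPar b W h I0 J0 k fun P => P.ok && (match run P bs pre [] with
    | some st => match pick st q sel with
      | some st0 => match run P bs is st0 with
        | some st1 => chkOut st1 os
        | none => false
      | none => false
    | none => false)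

theorem checkI_sound {b W' h I0 J0 k : ℕ} (A : Alg (par b W' h I0 J0 k) V) {bs : List Base}
    {pre : List Ins} {q : ℕ} {sel : List ℕ} {is : List Ins} {os : List Out}
    (hc : checkI b W' h I0 J0 k bs pre q sel is os = true) (ys : List V)
    (hy : List.Forall₂ (fun y i => ∀ x, nth (vals A bs pre []) i = some x → ‖y - x‖ ≤ 1 / 2 ^ q)
      ys sel) :
    ∀ o ∈ os, ∀ x, nth (vals A bs is ys) o.i = some x → ‖x‖ ≤ (o.n : ℝ) / 2 ^ o.q := by
  unfold checkI at hc
  rw [mkPar_eq, Bool.and_eq_true] at hc
  obtain ⟨h1, h2⟩ := hc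
  have hP := Par.ok_iff _ h1
  split at h2
  · rename_i st hst
    have hs := run_sound (A := A) hP bs pre [] [] st List.Forall₂.nil hst
    split at h2
    · rename_i st0 hst0
      have hs0 := pick_sound hs sel st0 ys hst0 hy
      split at h2
      · rename_i st1 hst1
        exact chkOut_sound (run_sound hP bs is ys st0 st1 hs0 hst1) os h2
      · exact absurd h2 (by simp)
    · exact absurd h2 (by simp)
  · exact absurd h2 (by simp)

end infl

/-! ### values of tables at the origin -/

theorem evp_iW_single (k : ℤ × ℤ) (a : ℤ) :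
    evp (0, 0) (iW (AddMonoidAlgebra.single k a)) = (a : ℂ) := by
  have h1 : iL (AddMonoidAlgebra.single k a) = AddMonoidAlgebra.single k (a : ℝ) := by
    simp [iL]
  change evp (0, 0) (toW (iL (AddMonoidAlgebra.single k a))) = _
  rw [h1, toW_single, map_smul]
  change (a : ℝ) • ev 0 0 (e k) = _
  rw [ev_e]
  simp [chr]

theorem evp_iW_quad (i j : ℕ) (a : ℤ) : evp (0, 0) (iW (quad 1 1 i j a)) = 4 * (a : ℂ) := by
  rw [quad]
  simp only [map_add, evp_iW_single, one_mul, mul_one]
  ring

/-- a quarter of the value of a table of cosines at the origin -/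
def sumB (B : Base) : ℤ :=
  ∑ j ∈ Finset.range (B.J + 1), ∑ i ∈ Finset.range (B.I + 1), qf B.N B.w (B.I + 1) i j

theorem evp_baseW (B : Base) (h1 : B.ε = 1) (h2 : B.δ = 1) :
    evp (0, 0) (baseW B 0 0) = (((2 : ℝ) ^ B.p)⁻¹ * (4 * (sumB B : ℝ)) : ℝ) := by
  have h : ∀ x : T, DD 0 0 x = x := fun x => rfl
  rw [baseW, map_smul, h, h1, h2, tab, map_sum, map_sum]
  have e : ∀ j ∈ Finset.range (B.J + 1),
      evp (0, 0) (iW (∑ i ∈ Finset.range (B.I + 1), quad 1 1 i j (qf B.N B.w (B.I + 1) i j))) =
      4 * ((∑ i ∈ Finset.range (B.I + 1), qf B.N B.w (B.I + 1) i j : ℤ) : ℂ) := by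
    intro j _
    rw [map_sum, map_sum]
    simp only [evp_iW_quad]
    rw [← Finset.mul_sum]
    push_cast
    rfl
  rw [Finset.sum_congr rfl e, ← Finset.mul_sum, sumB, Complex.real_smul]
  push_cast
  rfl

/-- a multiplier: a table of cosines, positive at the origin -/
structure MulOK (G : Base) : Prop where
  e : G.ε = 1
  d : G.δ = 1
  pos : 0 < sumB G

theorem MulOK.im {G : Base} (h : MulOK G) (p : ℝ × ℝ) : (evp p (baseW G 0 0)).im = 0 :=
  (evenW_base G (by rw [h.e]; norm_num) (by rw [h.d]; norm_num)
    (by rw [h.e, h.d]; norm_num)).im p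

theorem MulOK.re {G : Base} (h : MulOK G) : 0 < (evp (0, 0) (baseW G 0 0)).re := by
  rw [evp_baseW G h.e h.d, Complex.ofReal_re]
  have : (0 : ℝ) < (sumB G : ℝ) := by exact_mod_cast h.pos
  positivity

/-! ### the table of `2 cos` -/

/-- the table of `e^{iu} + e^{-iu}` -/
def baseE : Base := ⟨2, 1, 0, 1, 1, 1, [14]⟩

theorem qf_baseE0 : qf [14] 2 2 0 0 = 0 := by decide +kernel
theorem qf_baseE1 : qf [14] 2 2 1 0 = 1 := by decide +kernel

theorem iW_single (k : ℤ × ℤ) (a : ℤ) : iW (AddMonoidAlgebra.single k a) = (a : ℝ) • e k := by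
  have h1 : iL (AddMonoidAlgebra.single k a) = AddMonoidAlgebra.single k (a : ℝ) := by
    simp [iL]
  change toW (iL (AddMonoidAlgebra.single k a)) = _
  rw [h1, toW_single]

theorem baseE_0 : baseW baseE 0 0 = eu + eu' := by
  have h : ∀ x : T, DD 0 0 x = x := fun x => rfl
  rw [baseW, h]
  simp only [baseE, tab, Finset.sum_range_succ, Finset.range_zero, Finset.sum_empty, zero_add,
    qf_baseE0, qf_baseE1, quad, iW_single, map_add, Nat.reduceAdd, Nat.cast_zero, Nat.cast_one,
    mul_one, neg_zero, AddMonoidAlgebra.single_zero, Int.cast_one, one_smul]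
  rw [eu, eu', pow_one]
  module

theorem baseE_1 : baseW baseE 1 0 = eu - eu' := by
  rw [baseW, tab_DD]
  simp only [baseE, tab, Finset.sum_range_succ, Finset.range_zero, Finset.sum_empty, zero_add,
    qf_baseE0, qf_baseE1, quad, iW_single, map_add, Nat.reduceAdd, Nat.cast_zero, Nat.cast_one,
    mul_one, neg_zero, AddMonoidAlgebra.single_zero, Int.cast_one, one_smul, pow_one,
    pow_zero, one_mul, mul_zero, Int.cast_neg, neg_smul]
  rw [eu, eu']
  module

end D3
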