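import Pool.Agent.H.MP_ce2c94_gt.D3Asm

/-!
Surfaces in a rotating frame: `x + i y = e^{iv} (P + i Q)`, `z = Z`.
-/

open Set Filter Topology
open scoped ContDiff RealInnerProductSpace

namespace D3

theorem Jet2.add {f fu fv fuu fuv fvv g gu gv guu guv gvv : ℝ × ℝ → ℝ}
    (hf : Jet2 f fu fv fuu fuv fvv) (hg : Jet2 g gu gv guu guv gvv) :
    Jet2 (fun p => f p + g p) (fun p => fu p + gu p) (fun p => fv p + gv p)
      (fun p => fuu p + guu p) (fun p => fuv p + guv p) (fun p => fvv p + gvv p) where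
  smooth := hf.smooth.add hg.smooth
  d p := by
    refine ((hf.d p).add (hg.d p)).congr_fderiv ?_
    ext <;> simp [lf_apply]
  du p := by
    refine ((hf.du p).add (hg.du p)).congr_fderiv ?_
    ext <;> simp [lf_apply]
  dv p := by
    refine ((hf.dv p).add (hg.dv p)).congr_fderiv ?_
    ext <;> simp [lf_apply]

theorem lf_mul_aux {f g : ℝ × ℝ → ℝ} {a b c d : ℝ} {p : ℝ × ℝ} (hf : HasFDerivAt f (lf a b) p)
    (hg : HasFDerivAt g (lf c d) p) :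
    HasFDerivAt (fun q => f q * g q) (lf (a * g p + f p * c) (b * g p + f p * d)) p := by
  refine (hf.mul hg).congr_fderiv ?_
  ext <;> simp [lf_apply] <;> ring

theorem lf_add_aux {f g : ℝ × ℝ → ℝ} {a b c d : ℝ} {p : ℝ × ℝ} (hf : HasFDerivAt f (lf a b) p)
    (hg : HasFDerivAt g (lf c d) p) :
    HasFDerivAt (fun q => f q + g q) (lf (a + c) (b + d)) p := by
  refine (hf.add hg).congr_fderiv ?_
  ext <;> simp [lf_apply]

theorem Jet2.mul {f fu fv fuu fuv fvv g gu gv guu guv gvv : ℝ × ℝ → ℝ}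
    (hf : Jet2 f fu fv fuu fuv fvv) (hg : Jet2 g gu gv guu guv gvv) :
    Jet2 (fun p => f p * g p) (fun p => fu p * g p + f p * gu p)
      (fun p => fv p * g p + f p * gv p)
      (fun p => (fuu p * g p + fu p * gu p) + (fu p * gu p + f p * guu p))
      (fun p => (fuv p * g p + fu p * gv p) + (fv p * gu p + f p * guv p))
      (fun p => (fvv p * g p + fv p * gv p) + (fv p * gv p + f p * gvv p)) where
  smooth := hf.smooth.mul hg.smooth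
  d p := lf_mul_aux (hf.d p) (hg.d p)
  du p := lf_add_aux (lf_mul_aux (hf.du p) (hg.d p)) (lf_mul_aux (hf.d p) (hg.du p))
  dv p := by
    refine (lf_add_aux (lf_mul_aux (hf.dv p) (hg.d p))
      (lf_mul_aux (hf.d p) (hg.dv p))).congr_fderiv ?_
    ext <;> simp [lf_apply] <;> ring

theorem Jet2.congr {f fu fv fuu fuv fvv g gu gv guu guv gvv : ℝ × ℝ → ℝ}
    (hf : Jet2 f fu fv fuu fuv fvv) (h : ∀ p, g p = f p) (hu : ∀ p, gu p = fu p)
    (hv : ∀ p, gv p = fv p) (huu : ∀ p, guu p = fuu p) (huv : ∀ p, guv p = fuv p)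
    (hvv : ∀ p, gvv p = fvv p) : Jet2 g gu gv guu guv gvv := by
  have e1 : g = f := funext h
  have e2 : gu = fu := funext hu
  have e3 : gv = fv := funext hv
  have e4 : guu = fuu := funext huu
  have e5 : guv = fuv := funext huv
  have e6 : gvv = fvv := funext hvv
  subst e1 e2 e3 e4 e5 e6
  exact hf

theorem jet_cos : Jet2 (fun p => Real.cos p.2) (fun _ => 0) (fun p => -Real.sin p.2)
    (fun _ => 0) (fun _ => 0) (fun p => -Real.cos p.2) where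
  smooth := Real.contDiff_cos.comp contDiff_snd
  d p := by
    refine ((Real.hasDerivAt_cos p.2).comp_hasFDerivAt p hasFDerivAt_snd).congr_fderiv ?_
    ext <;> simp [lf_apply]
  du p := by
    refine (hasFDerivAt_const (0 : ℝ) p).congr_fderiv ?_
    ext <;> simp [lf_apply]
  dv p := by
    refine (((Real.hasDerivAt_sin p.2).neg).comp_hasFDerivAt p hasFDerivAt_snd).congr_fderiv ?_
    ext <;> simp [lf_apply]

theorem jet_sin : Jet2 (fun p => Real.sin p.2) (fun _ => 0) (fun p => Real.cos p.2)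
    (fun _ => 0) (fun _ => 0) (fun p => -Real.sin p.2) where
  smooth := Real.contDiff_sin.comp contDiff_snd
  d p := by
    refine ((Real.hasDerivAt_sin p.2).comp_hasFDerivAt p hasFDerivAt_snd).congr_fderiv ?_
    ext <;> simp [lf_apply]
  du p := by
    refine (hasFDerivAt_const (0 : ℝ) p).congr_fderiv ?_
    ext <;> simp [lf_apply]
  dv p := by
    refine ((Real.hasDerivAt_cos p.2).comp_hasFDerivAt p hasFDerivAt_snd).congr_fderiv ?_
    ext <;> simp [lf_apply]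

theorem Jet2.neg {f fu fv fuu fuv fvv : ℝ × ℝ → ℝ} (hf : Jet2 f fu fv fuu fuv fvv) :
    Jet2 (fun p => -f p) (fun p => -fu p) (fun p => -fv p)
      (fun p => -fuu p) (fun p => -fuv p) (fun p => -fvv p) where
  smooth := hf.smooth.neg
  d p := by
    refine ((hf.d p).neg).congr_fderiv ?_
    ext <;> simp [lf_apply]
  du p := by
    refine ((hf.du p).neg).congr_fderiv ?_
    ext <;> simp [lf_apply]
  dv p := by
    refine ((hf.dv p).neg).congr_fderiv ?_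
    ext <;> simp [lf_apply]

/-- The data of a surface in the rotating frame: the components `P, Q, Z` as functions of the
two parameters, with their derivatives. -/
structure RSurf where
  P : ℝ × ℝ → ℝ
  Q : ℝ × ℝ → ℝ
  Z : ℝ × ℝ → ℝ
  Pu : ℝ × ℝ → ℝ
  Pv : ℝ × ℝ → ℝ
  Qu : ℝ × ℝ → ℝ
  Qv : ℝ × ℝ → ℝ
  Zu : ℝ × ℝ → ℝ
  Zv : ℝ × ℝ → ℝ
  Puu : ℝ × ℝ → ℝ
  Puv : ℝ × ℝ → ℝ
  Pvv : ℝ × ℝ → ℝ
  Quu : ℝ × ℝ → ℝ
  Quv : ℝ × ℝ → ℝ
  Qvv : ℝ × ℝ → ℝ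
  Zuu : ℝ × ℝ → ℝ
  Zuv : ℝ × ℝ → ℝ
  Zvv : ℝ × ℝ → ℝ
  jP : Jet2 P Pu Pv Puu Puv Pvv
  jQ : Jet2 Q Qu Qv Quu Quv Qvv
  jZ : Jet2 Z Zu Zv Zuu Zuv Zvv
  pP : ∀ u v, P (u + 2 * Real.pi, v) = P (u, v)
  pP' : ∀ u v, P (u, v + 2 * Real.pi) = P (u, v)
  pQ : ∀ u v, Q (u + 2 * Real.pi, v) = Q (u, v)
  pQ' : ∀ u v, Q (u, v + 2 * Real.pi) = Q (u, v)
  pZ : ∀ u v, Z (u + 2 * Real.pi, v) = Z (u, v)
  pZ' : ∀ u v, Z (u, v + 2 * Real.pi) = Z (u, v)

namespace RSurf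

variable (R : RSurf)

/-- first component of the rotated vector -/
noncomputable def rx (a b : ℝ × ℝ → ℝ) (p : ℝ × ℝ) : ℝ :=
  a p * Real.cos p.2 - b p * Real.sin p.2

/-- second component of the rotated vector -/
noncomputable def ry (a b : ℝ × ℝ → ℝ) (p : ℝ × ℝ) : ℝ :=
  a p * Real.sin p.2 + b p * Real.cos p.2

/-- rotating frame components of `X_v` -/
def V1 (p : ℝ × ℝ) : ℝ := R.Pv p - R.Q p
def V2 (p : ℝ × ℝ) : ℝ := R.Qv p + R.P p

/-- rotating frame components of `X_uv` -/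
def U1 (p : ℝ × ℝ) : ℝ := R.Puv p - R.Qu p
def U2 (p : ℝ × ℝ) : ℝ := R.Quv p + R.Pu p

/-- rotating frame components of `X_vv` -/
def W1 (p : ℝ × ℝ) : ℝ := R.Pvv p - 2 * R.Qv p - R.P p
def W2 (p : ℝ × ℝ) : ℝ := R.Qvv p + 2 * R.Pv p - R.Q p

theorem jx : Jet2 (rx R.P R.Q) (rx R.Pu R.Qu) (rx R.V1 R.V2) (rx R.Puu R.Quu)
    (rx R.U1 R.U2) (rx R.W1 R.W2) := by
  refine ((R.jP.mul jet_cos).add (R.jQ.mul jet_sin).neg).congr ?_ ?_ ?_ ?_ ?_ ?_ <;> intro p <;>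
    simp only [rx, V1, V2, U1, U2, W1, W2] <;> ring

theorem jy : Jet2 (ry R.P R.Q) (ry R.Pu R.Qu) (ry R.V1 R.V2) (ry R.Puu R.Quu)
    (ry R.U1 R.U2) (ry R.W1 R.W2) := by
  refine ((R.jP.mul jet_sin).add (R.jQ.mul jet_cos)).congr ?_ ?_ ?_ ?_ ?_ ?_ <;> intro p <;>
    simp only [ry, V1, V2, U1, U2, W1, W2] <;> ring

/-- the surface -/
noncomputable def surf : Surf where
  x := rx R.P R.Q
  y := ry R.P R.Q
  z := R.Z
  xu := rx R.Pu R.Qu
  xv := rx R.V1 R.V2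
  yu := ry R.Pu R.Qu
  yv := ry R.V1 R.V2
  zu := R.Zu
  zv := R.Zv
  xuu := rx R.Puu R.Quu
  xuv := rx R.U1 R.U2
  xvv := rx R.W1 R.W2
  yuu := ry R.Puu R.Quu
  yuv := ry R.U1 R.U2
  yvv := ry R.W1 R.W2
  zuu := R.Zuu
  zuv := R.Zuv
  zvv := R.Zvv
  jx := R.jx
  jy := R.jy
  jz := R.jZ
  px u v := by simp [rx, R.pP, R.pQ]
  px' u v := by simp [rx, R.pP', R.pQ']
  py u v := by simp [ry, R.pP, R.pQ]
  py' u v := by simp [ry, R.pP', R.pQ']
  pz := R.pZ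
  pz' := R.pZ'

/-- components of `X_u × X_v` in the rotating frame -/
def N1 (p : ℝ × ℝ) : ℝ := R.Qu p * R.Zv p - R.Zu p * R.V2 p
def N2 (p : ℝ × ℝ) : ℝ := R.Zu p * R.V1 p - R.Pu p * R.Zv p
def N3 (p : ℝ × ℝ) : ℝ := R.Pu p * R.V2 p - R.Qu p * R.V1 p

/-- the first fundamental form in the rotating frame -/
def E (p : ℝ × ℝ) : ℝ := R.Pu p * R.Pu p + R.Qu p * R.Qu p + R.Zu p * R.Zu p
def F (p : ℝ × ℝ) : ℝ := R.Pu p * R.V1 p + R.Qu p * R.V2 p + R.Zu p * R.Zv p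
def G (p : ℝ × ℝ) : ℝ := R.V1 p * R.V1 p + R.V2 p * R.V2 p + R.Zv p * R.Zv p

/-- the shrinker equation in the rotating frame -/
noncomputable def Eq (p : ℝ × ℝ) : ℝ :=
  R.G p * (R.Puu p * R.N1 p + R.Quu p * R.N2 p + R.Zuu p * R.N3 p) -
    2 * R.F p * (R.U1 p * R.N1 p + R.U2 p * R.N2 p + R.Zuv p * R.N3 p) +
    R.E p * (R.W1 p * R.N1 p + R.W2 p * R.N2 p + R.Zvv p * R.N3 p) +
    (R.E p * R.G p - R.F p ^ 2) / 2 * (R.P p * R.N1 p + R.Q p * R.N2 p + R.Z p * R.N3 p)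

theorem rot_inner (a b c d : ℝ × ℝ → ℝ) (p : ℝ × ℝ) :
    rx a b p * rx c d p + ry a b p * ry c d p = a p * c p + b p * d p := by
  have h := Real.sin_sq_add_cos_sq p.2
  simp only [rx, ry]
  linear_combination (a p * c p + b p * d p) * h

theorem rot_cross (a b c d : ℝ × ℝ → ℝ) (p : ℝ × ℝ) :
    rx a b p * ry c d p - ry a b p * rx c d p = a p * d p - b p * c p := by
  have h := Real.sin_sq_add_cos_sq p.2
  simp only [rx, ry]
  linear_combination (a p * d p - b p * c p) * h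

theorem surf_E (p : ℝ × ℝ) : R.surf.E p = R.E p := by
  change rx R.Pu R.Qu p * rx R.Pu R.Qu p + ry R.Pu R.Qu p * ry R.Pu R.Qu p + R.Zu p * R.Zu p = _
  rw [rot_inner]
  rfl

theorem surf_F (p : ℝ × ℝ) : R.surf.F p = R.F p := by
  change rx R.Pu R.Qu p * rx R.V1 R.V2 p + ry R.Pu R.Qu p * ry R.V1 R.V2 p + R.Zu p * R.Zv p = _
  rw [rot_inner]
  rfl

theorem surf_G (p : ℝ × ℝ) : R.surf.G p = R.G p := by
  change rx R.V1 R.V2 p * rx R.V1 R.V2 p + ry R.V1 R.V2 p * ry R.V1 R.V2 p + R.Zv p * R.Zv p = _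
  rw [rot_inner]
  rfl

theorem surf_n1 (p : ℝ × ℝ) : R.surf.n1 p = rx R.N1 R.N2 p := by
  change ry R.Pu R.Qu p * R.Zv p - R.Zu p * ry R.V1 R.V2 p = _
  simp only [rx, ry, N1, N2]
  ring

theorem surf_n2 (p : ℝ × ℝ) : R.surf.n2 p = ry R.N1 R.N2 p := by
  change R.Zu p * rx R.V1 R.V2 p - rx R.Pu R.Qu p * R.Zv p = _
  simp only [rx, ry, N1, N2]
  ring

theorem surf_n3 (p : ℝ × ℝ) : R.surf.n3 p = R.N3 p := by
  change rx R.Pu R.Qu p * ry R.V1 R.V2 p - ry R.Pu R.Qu p * rx R.V1 R.V2 p = _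
  rw [rot_cross]
  rfl

theorem surf_P (p : ℝ × ℝ) : R.surf.P p = R.Eq p := by
  unfold Surf.P
  rw [surf_E, surf_F, surf_G, surf_n1, surf_n2, surf_n3]
  have e1 : R.surf.xuu p * rx R.N1 R.N2 p + R.surf.yuu p * ry R.N1 R.N2 p =
      R.Puu p * R.N1 p + R.Quu p * R.N2 p := rot_inner _ _ _ _ p
  have e2 : R.surf.xuv p * rx R.N1 R.N2 p + R.surf.yuv p * ry R.N1 R.N2 p =
      R.U1 p * R.N1 p + R.U2 p * R.N2 p := rot_inner _ _ _ _ p
  have e3 : R.surf.xvv p * rx R.N1 R.N2 p + R.surf.yvv p * ry R.N1 R.N2 p =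
      R.W1 p * R.N1 p + R.W2 p * R.N2 p := rot_inner _ _ _ _ p
  have e4 : R.surf.x p * rx R.N1 R.N2 p + R.surf.y p * ry R.N1 R.N2 p =
      R.P p * R.N1 p + R.Q p * R.N2 p := rot_inner _ _ _ _ p
  rw [e1, e2, e3, e4]
  rfl

theorem surf_h1 (p : ℝ × ℝ) : R.surf.x p * Real.cos p.2 + R.surf.y p * Real.sin p.2 = R.P p := by
  have h := Real.sin_sq_add_cos_sq p.2
  change rx R.P R.Q p * Real.cos p.2 + ry R.P R.Q p * Real.sin p.2 = _
  simp only [rx, ry]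
  linear_combination R.P p * h

theorem surf_s (p : ℝ × ℝ) : R.surf.x p ^ 2 + R.surf.y p ^ 2 = R.P p ^ 2 + R.Q p ^ 2 := by
  have := rot_inner R.P R.Q R.P R.Q p
  change rx R.P R.Q p ^ 2 + ry R.P R.Q p ^ 2 = _
  nlinarith [this]

/-- the quantity `A_v` -/
def Av (p : ℝ × ℝ) : ℝ := R.P p * R.V2 p - R.Q p * R.V1 p

/-- the quantity `J` in the rotating frame -/
def J (S0 : ℝ) (p : ℝ × ℝ) : ℝ :=
  -((R.P p ^ 2 + R.Q p ^ 2 - S0) * (R.P p * R.N1 p + R.Q p * R.N2 p) +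
    2 * (R.P p ^ 2 + R.Q p ^ 2) * R.Z p * R.N3 p)

theorem surf_h3 (p : ℝ × ℝ) :
    R.surf.x p * R.surf.yv p - R.surf.y p * R.surf.xv p = R.Av p :=
  rot_cross _ _ _ _ p

theorem surf_J (S0 : ℝ) (p : ℝ × ℝ) : R.surf.J S0 p = R.J S0 p := by
  unfold Surf.J
  rw [surf_s, surf_n1, surf_n2, surf_n3]
  have e4 : R.surf.x p * rx R.N1 R.N2 p + R.surf.y p * ry R.N1 R.N2 p =
      R.P p * R.N1 p + R.Q p * R.N2 p := rot_inner _ _ _ _ p
  rw [e4]
  rfl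

/-- Criterion for a closed embedded self-shrinking torus, in the rotating frame. -/
theorem isShrinkingTorus {S0 c : ℝ} (hc : 0 < c) (h1 : ∀ p : ℝ × ℝ, 0 < R.P p)
    (h2 : ∀ p : ℝ × ℝ, 0 < (R.P p ^ 2 + R.Q p ^ 2 - S0) * Real.cos p.1 +
      c * R.Z p * Real.sin p.1)
    (h3 : ∀ p, 0 < R.Av p) (h4 : ∀ p, 0 < R.J S0 p) (hP : ∀ p, R.Eq p = 0) :
    IsShrinkingTorus (range R.surf.X) := by
  refine R.surf.isShrinkingTorus (S0 := S0) hc ?_ ?_ ?_ ?_ ?_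
  · intro p
    rw [surf_h1]
    exact h1 p
  · intro p
    rw [surf_s]
    exact h2 p
  · intro p
    rw [surf_h3]
    exact h3 p
  · intro p
    rw [surf_J]
    exact h4 p
  · intro p
    rw [surf_P]
    exact hP p

theorem surf_r (p : ℝ × ℝ) : R.surf.x p ^ 2 + R.surf.y p ^ 2 + R.surf.z p ^ 2 =
    R.P p ^ 2 + R.Q p ^ 2 + R.Z p ^ 2 := by
  rw [surf_s]
  rfl

end RSurf

end D3
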