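import Mathlib.Tactic
import Mathlib.Algebra.Algebra.Basic
import Mathlib.Data.Real.Basic

/-!
The surface equation and the embeddedness quantities in a ring of Fourier series with real
coefficients.

A real function `f(u,t)` of even total parity is represented by itself, one of odd total parity by
`i f`. `Du`, `Dt` are the operators with symbols `j`, `m` (so `∂_u = i Du`). The components of the
surface in the rotating frame are `P` (even), `Q` and `Z` (odd): `p = P`, `q = i Q`, `z = i Z`.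
-/

namespace D3

/-- The elements `p, q, z` and their images under `Du`, `Dt`, `Du²`, `Du Dt`, `Dt²`. -/
structure TJet (W : Type*) where
  p : W
  q : W
  z : W
  pu : W
  qu : W
  zu : W
  pt : W
  qt : W
  zt : W
  puu : W
  quu : W
  zuu : W
  put : W
  qut : W
  zut : W
  ptt : W
  qtt : W
  ztt : W

namespace TJet

variable {W : Type*} [CommRing W] [Algebra ℝ W] (X : TJet W) (κ : ℝ)

/-! Components of the derivatives of the surface with respect to `u` and `v = t / κ` in the
rotating frame; the first component of `X_u`, `X_v` and the last two of the second derivatives and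
of `X` are the twisted ones. -/
def xu1 : W := -X.pu
def xu2 : W := X.qu
def xu3 : W := X.zu
def xv1 : W := -(κ • X.pt) - X.q
def xv2 : W := κ • X.qt + X.p
def xv3 : W := κ • X.zt
def xuu1 : W := -X.puu
def xuu2 : W := -X.quu
def xuu3 : W := -X.zuu
def xuv1 : W := -(κ • X.put) - X.qu
def xuv2 : W := -(κ • X.qut) - X.pu
def xuv3 : W := -(κ • X.zut)
def xvv1 : W := -(κ ^ 2 • X.ptt) - (2 * κ) • X.qt - X.p
def xvv2 : W := -(κ ^ 2 • X.qtt) - (2 * κ) • X.pt - X.q
def xvv3 : W := -(κ ^ 2 • X.ztt)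

/-- the normal vector `X_u × X_v` -/
def n1 : W := X.xu2 * X.xv3 κ - X.xu3 * X.xv2 κ
def n2 : W := X.xu3 * X.xv1 κ - X.xu1 * X.xv3 κ
def n3 : W := X.xu1 * X.xv2 κ - X.xu2 * X.xv1 κ

/-- the first fundamental form -/
def E : W := X.xu2 * X.xu2 + X.xu3 * X.xu3 - X.xu1 * X.xu1
def F : W := X.xu2 * X.xv2 κ + X.xu3 * X.xv3 κ - X.xu1 * X.xv1 κ
def G : W := X.xv2 κ * X.xv2 κ + X.xv3 κ * X.xv3 κ - X.xv1 κ * X.xv1 κ

/-- inner product of `(a1, a2, a3)` with the normal (`a2`, `a3` twisted) -/
def dn (a1 a2 a3 : W) : W := a1 * X.n1 κ - a2 * X.n2 κ - a3 * X.n3 κ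

/-- twice the shrinker polynomial -/
def eq : W :=
  2 * (X.G κ * X.dn κ X.xuu1 X.xuu2 X.xuu3) -
    4 * (X.F κ * X.dn κ (X.xuv1 κ) (X.xuv2 κ) (X.xuv3 κ)) +
    2 * (X.E * X.dn κ (X.xvv1 κ) (X.xvv2 κ) (X.xvv3 κ)) +
    (X.E * X.G κ - X.F κ * X.F κ) * X.dn κ X.p X.q X.z

/-- the squared distance from the axis -/
def s : W := X.p * X.p - X.q * X.q

/-- the second quantity to be positive; `c1 = cos u`, `s1 = i sin u` -/
def h2 (S0 c : ℝ) (c1 s1 : W) : W := (X.s - algebraMap ℝ W S0) * c1 - c • (X.z * s1)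

/-- the third quantity to be positive -/
def h3 : W := X.p * X.xv2 κ + X.q * X.xv1 κ

/-- the fourth quantity to be positive -/
def h4 (S0 : ℝ) : W :=
  2 * (X.s * (X.z * X.n3 κ)) - (X.s - algebraMap ℝ W S0) * (X.p * X.n1 κ - X.q * X.n2 κ)

end TJet

end D3
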