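import Pool.Agent.H.MP_ce2c94_gt.h16.Rot
import Pool.Agent.H.MP_ce2c94_gt.h16.TJet

/-!
From elements of a ring of Fourier series to surfaces in the rotating frame.
-/

open Set Filter Topology
open scoped ContDiff

namespace D3

/-- A ring with evaluations in the points of the plane. -/
structure Evl (W : Type*) [CommRing W] [Algebra ℝ W] where
  /-- evaluation -/
  ev : ℝ → ℝ → W →ₐ[ℝ] ℂ
  smooth : ∀ f, ContDiff ℝ ∞ fun p : ℝ × ℝ => ev p.1 p.2 f
  per_u : ∀ u t f, ev (u + 2 * Real.pi) t f = ev u t f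
  per_t : ∀ u t f, ev u (t + 2 * Real.pi) f = ev u t f

namespace Evl

variable {W : Type*} [CommRing W] [Algebra ℝ W] (e : Evl W)

/-- `fu = -i ∂_u f`, `ft = -i ∂_t f` -/
def Der (f fu ft : W) : Prop :=
  ∀ p : ℝ × ℝ, HasFDerivAt (fun p : ℝ × ℝ => e.ev p.1 p.2 f)
    ((ContinuousLinearMap.fst ℝ ℝ ℝ).smulRight (Complex.I * e.ev p.1 p.2 fu) +
      (ContinuousLinearMap.snd ℝ ℝ ℝ).smulRight (Complex.I * e.ev p.1 p.2 ft)) p

/-- the composition with `(u, v) ↦ (u, κ v)` -/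
noncomputable def C (κ : ℝ) (f : W) (p : ℝ × ℝ) : ℂ := e.ev p.1 (κ * p.2) f

theorem C_smooth (κ : ℝ) (f : W) : ContDiff ℝ ∞ (e.C κ f) :=
  (e.smooth f).comp (contDiff_fst.prodMk (contDiff_const.mul contDiff_snd))

theorem C_deriv {f fu ft : W} (h : e.Der f fu ft) (κ : ℝ) (p : ℝ × ℝ) :
    HasFDerivAt (e.C κ f) ((ContinuousLinearMap.fst ℝ ℝ ℝ).smulRight (Complex.I * e.C κ fu p) +
      (ContinuousLinearMap.snd ℝ ℝ ℝ).smulRight ((κ : ℂ) * (Complex.I * e.C κ ft p))) p := by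
  have h1 : HasFDerivAt (fun p : ℝ × ℝ => (p.1, κ * p.2))
      ((ContinuousLinearMap.fst ℝ ℝ ℝ).prod (κ • ContinuousLinearMap.snd ℝ ℝ ℝ)) p :=
    hasFDerivAt_fst.prodMk (hasFDerivAt_snd.const_mul κ)
  refine ((h (p.1, κ * p.2)).comp p h1).congr_fderiv ?_
  ext <;> simp [C]

/-- real part -/
noncomputable def r (κ : ℝ) (f : W) (p : ℝ × ℝ) : ℝ := (e.C κ f p).re

/-- imaginary part -/
noncomputable def i (κ : ℝ) (f : W) (p : ℝ × ℝ) : ℝ := (e.C κ f p).im

theorem r_deriv {f fu ft : W} (h : e.Der f fu ft) (κ : ℝ) (p : ℝ × ℝ) :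
    HasFDerivAt (e.r κ f) (lf (-e.i κ fu p) (-(κ * e.i κ ft p))) p := by
  refine (Complex.reCLM.hasFDerivAt.comp p (e.C_deriv h κ p)).congr_fderiv ?_
  ext <;> simp [lf_apply, i]

theorem i_deriv {f fu ft : W} (h : e.Der f fu ft) (κ : ℝ) (p : ℝ × ℝ) :
    HasFDerivAt (e.i κ f) (lf (e.r κ fu p) (κ * e.r κ ft p)) p := by
  refine (Complex.imCLM.hasFDerivAt.comp p (e.C_deriv h κ p)).congr_fderiv ?_
  ext <;> simp [lf_apply, r]

theorem r_smooth (κ : ℝ) (f : W) : ContDiff ℝ ∞ (e.r κ f) :=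
  Complex.reCLM.contDiff.comp (e.C_smooth κ f)

theorem i_smooth (κ : ℝ) (f : W) : ContDiff ℝ ∞ (e.i κ f) :=
  Complex.imCLM.contDiff.comp (e.C_smooth κ f)

theorem r_jet {f fu ft fuu fut ftt : W} (h : e.Der f fu ft) (hu : e.Der fu fuu fut)
    (ht : e.Der ft fut ftt) (κ : ℝ) :
    Jet2 (e.r κ f) (fun p => -e.i κ fu p) (fun p => -(κ * e.i κ ft p))
      (fun p => -e.r κ fuu p) (fun p => -(κ * e.r κ fut p))
      (fun p => -(κ ^ 2 * e.r κ ftt p)) where
  smooth := e.r_smooth κ f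
  d p := e.r_deriv h κ p
  du p := by
    refine (e.i_deriv hu κ p).neg.congr_fderiv ?_
    ext <;> simp [lf_apply]
  dv p := by
    refine ((e.i_deriv ht κ p).const_mul κ).neg.congr_fderiv ?_
    ext <;> simp [lf_apply] <;> ring

theorem i_jet {f fu ft fuu fut ftt : W} (h : e.Der f fu ft) (hu : e.Der fu fuu fut)
    (ht : e.Der ft fut ftt) (κ : ℝ) :
    Jet2 (e.i κ f) (e.r κ fu) (fun p => κ * e.r κ ft p)
      (fun p => -e.i κ fuu p) (fun p => -(κ * e.i κ fut p))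
      (fun p => -(κ ^ 2 * e.i κ ftt p)) where
  smooth := e.i_smooth κ f
  d p := e.i_deriv h κ p
  du p := by
    refine (e.r_deriv hu κ p).congr_fderiv ?_
    ext <;> simp [lf_apply]
  dv p := by
    refine ((e.r_deriv ht κ p).const_mul κ).congr_fderiv ?_
    ext <;> simp [lf_apply] <;> ring

theorem C_per (κ : ℝ) (f : W) (u v : ℝ) : e.C κ f (u + 2 * Real.pi, v) = e.C κ f (u, v) :=
  e.per_u _ _ _

theorem per_nat (n : ℕ) (u t : ℝ) (f : W) : e.ev u (t + n * (2 * Real.pi)) f = e.ev u t f := by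
  induction n with
  | zero => simp
  | succ n ih =>
    have : t + ((n + 1 : ℕ) : ℝ) * (2 * Real.pi) = (t + n * (2 * Real.pi)) + 2 * Real.pi := by
      push_cast
      ring
    rw [this, e.per_t, ih]

theorem C_per' (n : ℕ) (f : W) (u v : ℝ) :
    e.C n f (u, v + 2 * Real.pi) = e.C n f (u, v) := by
  unfold C
  have : (n : ℝ) * (v + 2 * Real.pi) = n * v + n * (2 * Real.pi) := by ring
  simp only
  rw [this, e.per_nat]

/-- all derivative relations of a jet -/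
structure IsJet (X : TJet W) : Prop where
  p : e.Der X.p X.pu X.pt
  q : e.Der X.q X.qu X.qt
  z : e.Der X.z X.zu X.zt
  pu : e.Der X.pu X.puu X.put
  qu : e.Der X.qu X.quu X.qut
  zu : e.Der X.zu X.zuu X.zut
  pt : e.Der X.pt X.put X.ptt
  qt : e.Der X.qt X.qut X.qtt
  zt : e.Der X.zt X.zut X.ztt

/-- the surface in the rotating frame -/
noncomputable def rsurf {X : TJet W} (h : e.IsJet X) (n : ℕ) : RSurf where
  P := e.r n X.p
  Q := e.i n X.q
  Z := e.i n X.z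
  Pu := fun p => -e.i n X.pu p
  Pv := fun p => -(n * e.i n X.pt p)
  Qu := e.r n X.qu
  Qv := fun p => n * e.r n X.qt p
  Zu := e.r n X.zu
  Zv := fun p => n * e.r n X.zt p
  Puu := fun p => -e.r n X.puu p
  Puv := fun p => -(n * e.r n X.put p)
  Pvv := fun p => -((n : ℝ) ^ 2 * e.r n X.ptt p)
  Quu := fun p => -e.i n X.quu p
  Quv := fun p => -(n * e.i n X.qut p)
  Qvv := fun p => -((n : ℝ) ^ 2 * e.i n X.qtt p)
  Zuu := fun p => -e.i n X.zuu p
  Zuv := fun p => -(n * e.i n X.zut p)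
  Zvv := fun p => -((n : ℝ) ^ 2 * e.i n X.ztt p)
  jP := e.r_jet h.p h.pu h.pt n
  jQ := e.i_jet h.q h.qu h.qt n
  jZ := e.i_jet h.z h.zu h.zt n
  pP u v := by simp [r, e.C_per]
  pP' u v := by simp [r, e.C_per']
  pQ u v := by simp [i, e.C_per]
  pQ' u v := by simp [i, e.C_per']
  pZ u v := by simp [i, e.C_per]
  pZ' u v := by simp [i, e.C_per']

/-- `f` takes real values -/
def Re (f : W) : Prop := ∀ u t, (e.ev u t f).im = 0

/-- `f` takes imaginary values -/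
def Im (f : W) : Prop := ∀ u t, (e.ev u t f).re = 0

theorem C_one (f : W) (p : ℝ × ℝ) : e.C 1 f p = e.ev p.1 p.2 f := by
  simp [C]

theorem Re.der {f fu ft : W} (hf : e.Re f) (h : e.Der f fu ft) : e.Im fu ∧ e.Im ft := by
  have h0 : e.i 1 f = fun _ => 0 := by
    funext p
    simp only [i, C_one]
    exact hf _ _
  have h1 : ∀ p : ℝ × ℝ, lf (e.r 1 fu p) (1 * e.r 1 ft p) = 0 := by
    intro p
    have := e.i_deriv h 1 p
    rw [h0] at this
    exact this.unique (hasFDerivAt_const (0 : ℝ) p)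
  have h2 : ∀ p : ℝ × ℝ, e.r 1 fu p = 0 ∧ e.r 1 ft p = 0 := by
    intro p
    have a := congrArg (fun L : ℝ × ℝ →L[ℝ] ℝ => L (1, 0)) (h1 p)
    have b := congrArg (fun L : ℝ × ℝ →L[ℝ] ℝ => L (0, 1)) (h1 p)
    simp only [lf_apply] at a b
    constructor
    · simpa using a
    · simpa using b
  constructor
  · intro u t
    have := (h2 (u, t)).1
    simpa [r, C_one] using this
  · intro u t
    have := (h2 (u, t)).2
    simpa [r, C_one] using this

theorem Im.der {f fu ft : W} (hf : e.Im f) (h : e.Der f fu ft) : e.Re fu ∧ e.Re ft := by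
  have h0 : e.r 1 f = fun _ => 0 := by
    funext p
    simp only [r, C_one]
    exact hf _ _
  have h1 : ∀ p : ℝ × ℝ, lf (-e.i 1 fu p) (-(1 * e.i 1 ft p)) = 0 := by
    intro p
    have := e.r_deriv h 1 p
    rw [h0] at this
    exact this.unique (hasFDerivAt_const (0 : ℝ) p)
  have h2 : ∀ p : ℝ × ℝ, e.i 1 fu p = 0 ∧ e.i 1 ft p = 0 := by
    intro p
    have a := congrArg (fun L : ℝ × ℝ →L[ℝ] ℝ => L (1, 0)) (h1 p)
    have b := congrArg (fun L : ℝ × ℝ →L[ℝ] ℝ => L (0, 1)) (h1 p)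
    simp only [lf_apply] at a b
    constructor
    · simpa using a
    · simpa using b
  constructor
  · intro u t
    have := (h2 (u, t)).1
    simpa [i, C_one] using this
  · intro u t
    have := (h2 (u, t)).2
    simpa [i, C_one] using this

theorem Re.C {f : W} (hf : e.Re f) (κ : ℝ) (p : ℝ × ℝ) : e.C κ f p = (e.r κ f p : ℂ) := by
  apply Complex.ext
  · simp [r]
  · simpa [Evl.C] using hf _ _

theorem Im.C {f : W} (hf : e.Im f) (κ : ℝ) (p : ℝ × ℝ) :
    e.C κ f p = Complex.I * (e.i κ f p : ℂ) := by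
  apply Complex.ext
  · simpa [Evl.C] using hf _ _
  · simp [i]

end Evl

end D3
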