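import Pool.Agent.H.MP_ce2c94_gt.h16.WB

/-!
The values of the surface equation and of the embeddedness quantities.
-/

open Set Filter Topology
open scoped ContDiff

namespace D3

namespace Evl

variable {W : Type*} [CommRing W] [Algebra ℝ W] (e : Evl W)

/-- the value of `f` is the real number `x` -/
def RV (κ : ℝ) (p : ℝ × ℝ) (f : W) (x : ℝ) : Prop := e.C κ f p = (x : ℂ)

/-- the value of `f` is `i x` -/
def IV (κ : ℝ) (p : ℝ × ℝ) (f : W) (x : ℝ) : Prop := e.C κ f p = Complex.I * (x : ℂ)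

variable {e} {κ : ℝ} {p : ℝ × ℝ} {f g : W} {x y : ℝ}

theorem C_mul (f g : W) : e.C κ (f * g) p = e.C κ f p * e.C κ g p := map_mul _ _ _
theorem C_add (f g : W) : e.C κ (f + g) p = e.C κ f p + e.C κ g p := map_add _ _ _
theorem C_sub (f g : W) : e.C κ (f - g) p = e.C κ f p - e.C κ g p := map_sub _ _ _
theorem C_neg (f : W) : e.C κ (-f) p = -e.C κ f p := map_neg _ _
theorem C_smul (c : ℝ) (f : W) : e.C κ (c • f) p = (c : ℂ) * e.C κ f p := by
  unfold C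
  rw [map_smul, Complex.real_smul]

theorem Re.v (hf : e.Re f) : e.RV κ p f (e.r κ f p) := hf.C e κ p
theorem Im.v (hf : e.Im f) : e.IV κ p f (e.i κ f p) := hf.C e κ p

theorem RV.congr (h : e.RV κ p f x) (hxy : x = y) : e.RV κ p f y := hxy ▸ h
theorem IV.congr (h : e.IV κ p f x) (hxy : x = y) : e.IV κ p f y := hxy ▸ h

theorem RV.mul (hf : e.RV κ p f x) (hg : e.RV κ p g y) : e.RV κ p (f * g) (x * y) := by
  unfold RV at *
  rw [C_mul, hf, hg]
  push_cast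
  ring

theorem RV.mulI (hf : e.RV κ p f x) (hg : e.IV κ p g y) : e.IV κ p (f * g) (x * y) := by
  unfold RV IV at *
  rw [C_mul, hf, hg]
  push_cast
  ring

theorem IV.mulR (hf : e.IV κ p f x) (hg : e.RV κ p g y) : e.IV κ p (f * g) (x * y) := by
  unfold RV IV at *
  rw [C_mul, hf, hg]
  push_cast
  ring

theorem IV.mul (hf : e.IV κ p f x) (hg : e.IV κ p g y) : e.RV κ p (f * g) (-(x * y)) := by
  unfold RV IV at *
  rw [C_mul, hf, hg]
  push_cast
  linear_combination (x * y : ℂ) * Complex.I_mul_I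

theorem RV.add (hf : e.RV κ p f x) (hg : e.RV κ p g y) : e.RV κ p (f + g) (x + y) := by
  unfold RV at *
  rw [C_add, hf, hg]
  push_cast
  ring

theorem IV.add (hf : e.IV κ p f x) (hg : e.IV κ p g y) : e.IV κ p (f + g) (x + y) := by
  unfold IV at *
  rw [C_add, hf, hg]
  push_cast
  ring

theorem RV.sub (hf : e.RV κ p f x) (hg : e.RV κ p g y) : e.RV κ p (f - g) (x - y) := by
  unfold RV at *
  rw [C_sub, hf, hg]
  push_cast
  ring

theorem IV.sub (hf : e.IV κ p f x) (hg : e.IV κ p g y) : e.IV κ p (f - g) (x - y) := by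
  unfold IV at *
  rw [C_sub, hf, hg]
  push_cast
  ring

theorem RV.neg (hf : e.RV κ p f x) : e.RV κ p (-f) (-x) := by
  unfold RV at *
  rw [C_neg, hf]
  push_cast
  ring

theorem IV.neg (hf : e.IV κ p f x) : e.IV κ p (-f) (-x) := by
  unfold IV at *
  rw [C_neg, hf]
  push_cast
  ring

theorem RV.smul (c : ℝ) (hf : e.RV κ p f x) : e.RV κ p (c • f) (c * x) := by
  unfold RV at *
  rw [C_smul, hf]
  push_cast
  ring

theorem IV.smul (c : ℝ) (hf : e.IV κ p f x) : e.IV κ p (c • f) (c * x) := by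
  unfold IV at *
  rw [C_smul, hf]
  push_cast
  ring

theorem RV.two (hf : e.RV κ p f x) : e.RV κ p (2 * f) (2 * x) := by
  unfold RV at *
  have : (2 : W) * f = f + f := by ring
  rw [this, C_add, hf]
  push_cast
  ring

theorem RV.four (hf : e.RV κ p f x) : e.RV κ p (4 * f) (4 * x) := by
  have := hf.two.two
  have h4 : (2 : W) * (2 * f) = 4 * f := by ring
  rw [h4] at this
  exact this.congr (by ring)

theorem RV.alg (c : ℝ) : e.RV κ p (algebraMap ℝ W c) c := by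
  unfold RV C
  rw [AlgHom.commutes]
  rfl

theorem RV.eq (hf : e.RV κ p f x) : x = e.r κ f p := by
  unfold RV at hf
  unfold r
  rw [hf, Complex.ofReal_re]

theorem RV.zero (hf : e.RV κ p (0 : W) x) : x = 0 := by
  unfold RV C at hf
  rw [map_zero] at hf
  exact_mod_cast hf.symm

/-- the parities of the surface -/
structure Par (e : Evl W) (X : TJet W) : Prop where
  p : e.Re X.p
  q : e.Im X.q
  z : e.Im X.z

variable {X : TJet W} (h : e.IsJet X) (hp : e.Par X) (n : ℕ) (p : ℝ × ℝ)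

include hp

theorem v_p : e.RV n p X.p ((e.rsurf h n).P p) := hp.p.v
theorem v_q : e.IV n p X.q ((e.rsurf h n).Q p) := hp.q.v
theorem v_z : e.IV n p X.z ((e.rsurf h n).Z p) := hp.z.v

theorem v_xu1 : e.IV n p X.xu1 ((e.rsurf h n).Pu p) := (hp.p.der e h.p).1.v.neg
theorem v_xu2 : e.RV n p X.xu2 ((e.rsurf h n).Qu p) := (hp.q.der e h.q).1.v
theorem v_xu3 : e.RV n p X.xu3 ((e.rsurf h n).Zu p) := (hp.z.der e h.z).1.v

theorem v_xv1 : e.IV n p (X.xv1 n) ((e.rsurf h n).V1 p) :=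
  ((hp.p.der e h.p).2.v.smul n).neg.sub (v_q h hp n p)

theorem v_xv2 : e.RV n p (X.xv2 n) ((e.rsurf h n).V2 p) :=
  ((hp.q.der e h.q).2.v.smul n).add (v_p h hp n p)

theorem v_xv3 : e.RV n p (X.xv3 n) ((e.rsurf h n).Zv p) :=
  (hp.z.der e h.z).2.v.smul n

theorem v_xuu1 : e.RV n p X.xuu1 ((e.rsurf h n).Puu p) :=
  ((hp.p.der e h.p).1.der e h.pu).1.v.neg
theorem v_xuu2 : e.IV n p X.xuu2 ((e.rsurf h n).Quu p) :=
  ((hp.q.der e h.q).1.der e h.qu).1.v.neg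
theorem v_xuu3 : e.IV n p X.xuu3 ((e.rsurf h n).Zuu p) :=
  ((hp.z.der e h.z).1.der e h.zu).1.v.neg

theorem v_xuv1 : e.RV n p (X.xuv1 n) ((e.rsurf h n).U1 p) :=
  (((hp.p.der e h.p).1.der e h.pu).2.v.smul n).neg.sub
    (v_xu2 h hp n p)
theorem v_xuv2 : e.IV n p (X.xuv2 n) ((e.rsurf h n).U2 p) := by
  refine ((((hp.q.der e h.q).1.der e h.qu).2.v.smul n).neg.sub
    (hp.p.der e h.p).1.v).congr ?_
  simp only [RSurf.U2, rsurf]
  ring

theorem v_xuv3 : e.IV n p (X.xuv3 n) ((e.rsurf h n).Zuv p) :=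
  (((hp.z.der e h.z).1.der e h.zu).2.v.smul n).neg

theorem v_xvv1 : e.RV n p (X.xvv1 n) ((e.rsurf h n).W1 p) := by
  refine (((((hp.p.der e h.p).2.der e h.pt).2.v.smul
    ((n : ℝ) ^ 2)).neg.sub
      ((hp.q.der e h.q).2.v.smul (2 * n))).sub
        (v_p h hp n p)).congr ?_
  simp only [RSurf.W1, rsurf]
  ring

theorem v_xvv2 : e.IV n p (X.xvv2 n) ((e.rsurf h n).W2 p) := by
  refine (((((hp.q.der e h.q).2.der e h.qt).2.v.smul
    ((n : ℝ) ^ 2)).neg.sub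
      ((hp.p.der e h.p).2.v.smul (2 * n))).sub
        (v_q h hp n p)).congr ?_
  simp only [RSurf.W2, rsurf]
  ring

theorem v_xvv3 : e.IV n p (X.xvv3 n) ((e.rsurf h n).Zvv p) :=
  (((hp.z.der e h.z).2.der e h.zt).2.v.smul ((n : ℝ) ^ 2)).neg

theorem v_n1 : e.RV n p (X.n1 n) ((e.rsurf h n).N1 p) :=
  ((v_xu2 h hp n p).mul (v_xv3 h hp n p)).sub ((v_xu3 h hp n p).mul (v_xv2 h hp n p))

theorem v_n2 : e.IV n p (X.n2 n) ((e.rsurf h n).N2 p) :=
  ((v_xu3 h hp n p).mulI (v_xv1 h hp n p)).sub ((v_xu1 h hp n p).mulR (v_xv3 h hp n p))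

theorem v_n3 : e.IV n p (X.n3 n) ((e.rsurf h n).N3 p) :=
  ((v_xu1 h hp n p).mulR (v_xv2 h hp n p)).sub ((v_xu2 h hp n p).mulI (v_xv1 h hp n p))

theorem v_E : e.RV n p X.E ((e.rsurf h n).E p) :=
  ((((v_xu2 h hp n p).mul (v_xu2 h hp n p)).add ((v_xu3 h hp n p).mul (v_xu3 h hp n p))).sub
    ((v_xu1 h hp n p).mul (v_xu1 h hp n p))).congr (by simp only [RSurf.E]; ring)

theorem v_F : e.RV n p (X.F n) ((e.rsurf h n).F p) :=
  ((((v_xu2 h hp n p).mul (v_xv2 h hp n p)).add ((v_xu3 h hp n p).mul (v_xv3 h hp n p))).sub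
    ((v_xu1 h hp n p).mul (v_xv1 h hp n p))).congr (by simp only [RSurf.F]; ring)

theorem v_G : e.RV n p (X.G n) ((e.rsurf h n).G p) :=
  ((((v_xv2 h hp n p).mul (v_xv2 h hp n p)).add ((v_xv3 h hp n p).mul (v_xv3 h hp n p))).sub
    ((v_xv1 h hp n p).mul (v_xv1 h hp n p))).congr (by simp only [RSurf.G]; ring)

theorem v_dn {a1 a2 a3 : W} {x1 x2 x3 : ℝ} (h1 : e.RV n p a1 x1) (h2 : e.IV n p a2 x2)
    (h3 : e.IV n p a3 x3) : e.RV n p (X.dn n a1 a2 a3)
      (x1 * (e.rsurf h n).N1 p + x2 * (e.rsurf h n).N2 p + x3 * (e.rsurf h n).N3 p) :=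
  (((h1.mul (v_n1 h hp n p)).sub (h2.mul (v_n2 h hp n p))).sub
    (h3.mul (v_n3 h hp n p))).congr (by ring)

/-- the value of the shrinker polynomial -/
theorem v_eq : e.RV n p (X.eq n) (2 * (e.rsurf h n).Eq p) := by
  have hE := v_E h hp n p
  have hF := v_F h hp n p
  have hG := v_G h hp n p
  have a := v_dn h hp n p (v_xuu1 h hp n p) (v_xuu2 h hp n p) (v_xuu3 h hp n p)
  have b := v_dn h hp n p (v_xuv1 h hp n p) (v_xuv2 h hp n p) (v_xuv3 h hp n p)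
  have c := v_dn h hp n p (v_xvv1 h hp n p) (v_xvv2 h hp n p) (v_xvv3 h hp n p)
  have d := v_dn h hp n p (v_p h hp n p) (v_q h hp n p) (v_z h hp n p)
  refine (((((hG.mul a).two).sub (hF.mul b).four).add (hE.mul c).two).add
    (((hE.mul hG).sub (hF.mul hF)).mul d)).congr ?_
  simp only [RSurf.Eq]
  ring

theorem v_s : e.RV n p X.s ((e.rsurf h n).P p ^ 2 + (e.rsurf h n).Q p ^ 2) :=
  (((v_p h hp n p).mul (v_p h hp n p)).sub ((v_q h hp n p).mul (v_q h hp n p))).congr (by ring)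

theorem v_h2 {c1 s1 : W} (hc : e.RV n p c1 (Real.cos p.1)) (hs : e.IV n p s1 (Real.sin p.1))
    (S0 c : ℝ) : e.RV n p (X.h2 S0 c c1 s1)
      (((e.rsurf h n).P p ^ 2 + (e.rsurf h n).Q p ^ 2 - S0) * Real.cos p.1 +
        c * (e.rsurf h n).Z p * Real.sin p.1) :=
  ((((v_s h hp n p).sub (RV.alg S0)).mul hc).sub
    (((v_z h hp n p).mul hs).smul c)).congr (by ring)

theorem v_h3 : e.RV n p (X.h3 n) ((e.rsurf h n).Av p) :=
  (((v_p h hp n p).mul (v_xv2 h hp n p)).add ((v_q h hp n p).mul (v_xv1 h hp n p))).congr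
    (by simp only [RSurf.Av]; ring)

theorem v_h4 (S0 : ℝ) : e.RV n p (X.h4 n S0) ((e.rsurf h n).J S0 p) :=
  ((((v_s h hp n p).mul ((v_z h hp n p).mul (v_n3 h hp n p))).two).sub
    (((v_s h hp n p).sub (RV.alg S0)).mul
      (((v_p h hp n p).mul (v_n1 h hp n p)).sub ((v_q h hp n p).mul (v_n2 h hp n p))))).congr
    (by simp only [RSurf.J]; ring)

/-- **Criterion in the ring.** -/
theorem isShrinkingTorus (n : ℕ) {S0 c : ℝ} (hc : 0 < c) {c1 s1 : W}
    (hc1 : ∀ p : ℝ × ℝ, e.RV n p c1 (Real.cos p.1)) (hs1 : ∀ p : ℝ × ℝ, e.IV n p s1 (Real.sin p.1))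
    (hE : X.eq n = 0) (h1 : ∀ p, 0 < e.r n X.p p) (h2 : ∀ p, 0 < e.r n (X.h2 S0 c c1 s1) p)
    (h3 : ∀ p, 0 < e.r n (X.h3 n) p) (h4 : ∀ p, 0 < e.r n (X.h4 n S0) p) :
    IsShrinkingTorus (range (e.rsurf h n).surf.X) := by
  refine (e.rsurf h n).isShrinkingTorus (S0 := S0) hc h1 ?_ ?_ ?_ ?_
  · intro p
    rw [(v_h2 h hp n p (hc1 p) (hs1 p) S0 c).eq]
    exact h2 p
  · intro p
    rw [(v_h3 h hp n p).eq]
    exact h3 p
  · intro p
    rw [(v_h4 h hp n p S0).eq]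
    exact h4 p
  · intro p
    have := v_eq h hp n p
    rw [hE] at this
    have := this.zero
    linarith

end Evl

end D3
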